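import Pool.Agent.Run7.h225.HP.Iface

/-!
# Piece PLS: the system of the multiple polylogarithms
-/

set_option autoImplicit false

open PowerSeries Matrix
open Pool.Agent.Y113 hiding Bm
open Pool.Agent.Y120.GF Pool.Agent.Y120.GH Pool.Agent.Y119.HZ
open Pool.Agent.Y119.HY (cm E Hf Yf Vr Rel Gal Sol)
open Pool.Agent.Run7.h225.HG
open Pool.Agent.Run7.h225.HP
open Pool.Agent.Y119.ML (In const_In)

namespace Pool.Agent.Run7.h160.HP

/-! ### the series -/

/-- `z / (1 - z)` -/
noncomputable def GG : ℚ⟦X⟧ := X * PowerSeries.mk fun _ => 1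

lemma coeff_GG (f : ℚ⟦X⟧) (k : ℕ) : coeff k (GG * f) = ∑ l ∈ Finset.range k, coeff l f := by
  unfold GG
  rw [mul_assoc]
  cases k with
  | zero => simp
  | succ k =>
    rw [coeff_succ_X_mul, coeff_mul]
    simp only [coeff_mk, one_mul]
    rw [Finset.Nat.sum_antidiagonal_eq_sum_range_succ (fun _ j => coeff j f)]
    exact Finset.sum_flip (fun j => coeff j f)

lemma cc_GG (f : ℚ⟦X⟧) : coeff 0 (GG * f) = 0 := by
  rw [coeff_GG, Finset.range_zero, Finset.sum_empty]

/-- the recursion -/
noncomputable def hh : ℕ → List Bool → ℚ⟦X⟧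
  | 0, _ => 1
  | n + 1, w => In ((match w with
      | [] => 0
      | false :: u => hh n u
      | true :: u => GG * hh n u) - if w.getLast? = some false then hh n w.dropLast else 0)

/-- the series of a word -/
noncomputable def hw (w : List Bool) : ℚ⟦X⟧ := hh w.length w

/-- the part of the first letter -/
noncomputable def tl : List Bool → ℚ⟦X⟧
  | [] => 0
  | false :: u => hw u
  | true :: u => GG * hw u

/-- the part of the last letter -/
noncomputable def la (w : List Bool) : ℚ⟦X⟧ := if w.getLast? = some false then hw w.dropLast else 0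

lemma hw_nil : hw [] = 1 := rfl

lemma hw_cons (a : Bool) (u : List Bool) : hw (a :: u) = In (tl (a :: u) - la (a :: u)) := by
  have h1 : (a :: u).dropLast.length = u.length := by simp
  unfold hw la
  rw [List.length_cons]
  unfold hh
  congr 1
  cases a <;> simp only [tl, hw, h1]

lemma cc_hw (w : List Bool) (h : w ≠ []) : coeff 0 (hw w) = 0 := by
  obtain ⟨a, u, rfl⟩ := List.exists_cons_of_ne_nil h
  rw [hw_cons, coeff_zero_eq_constantCoeff_apply]
  exact const_In _

lemma cc_eq (a : Bool) (u : List Bool) : coeff 0 (tl (a :: u) - la (a :: u)) = 0 := by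
  rw [map_sub]
  by_cases hu : u = []
  · subst hu
    cases a
    · simp [tl, la, hw_nil]
    · have : la [true] = 0 := by simp [la]
      rw [this]
      show coeff 0 (GG * hw []) - _ = 0
      rw [cc_GG, map_zero, sub_zero]
  · have h1 : coeff 0 (la (a :: u)) = 0 := by
      unfold la
      split_ifs
      · refine cc_hw _ ?_
        rw [List.dropLast_cons_of_ne_nil hu]
        exact List.cons_ne_nil _ _
      · exact map_zero _
    rw [h1, sub_zero]
    cases a
    · exact cc_hw u hu
    · exact cc_GG _

lemma coeff_hw (a : Bool) (u : List Bool) (k : ℕ) :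
    (k : ℚ) * coeff k (hw (a :: u)) = coeff k (tl (a :: u)) - coeff k (la (a :: u)) := by
  rw [hw_cons, ← map_sub]
  rcases Nat.eq_zero_or_pos k with rfl | hk
  · rw [cc_eq, Nat.cast_zero, zero_mul]
  · have h0 : (k : ℚ) ≠ 0 := by positivity
    rw [In, coeff_mk]
    field_simp

open Classical in
/-- the entries -/
noncomputable def HH (u v : List Bool) : ℚ⟦X⟧ := if v <:+ u then hw (u.take (u.length - v.length)) else 0

lemma HH_app (w v : List Bool) : HH (w ++ v) v = hw w := by
  unfold HH
  rw [if_pos (List.suffix_append w v)]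
  congr 1
  rw [List.length_append, Nat.add_sub_cancel, List.take_left']
  rfl

lemma HH_not {u v : List Bool} (h : ¬ v <:+ u) : HH u v = 0 := by
  unfold HH
  rw [if_neg h]

lemma HH_len {u v : List Bool} (h : u.length < v.length) : HH u v = 0 :=
  HH_not fun h1 => absurd h1.length_le (not_le.2 h)

/-- the part of the first letter -/
noncomputable def TL : List Bool → List Bool → ℚ⟦X⟧
  | [], _ => 0
  | false :: u, v => HH u v
  | true :: u, v => GG * HH u v

lemma main (u v : List Bool) (k : ℕ) :
    (k : ℚ) * coeff k (HH u v) = coeff k (TL u v) - coeff k (HH u (false :: v)) := by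
  by_cases h : v <:+ u
  · obtain ⟨w, rfl⟩ := h
    cases w with
    | nil =>
      have h1 : HH ([] ++ v) (false :: v) = 0 := HH_len (by simp)
      have h2 : TL ([] ++ v) v = 0 := by
        rw [List.nil_append]
        cases v with
        | nil => rfl
        | cons a v =>
          have h3 : HH v (a :: v) = 0 := HH_len (by simp)
          cases a
          · exact h3
          · show GG * HH v (true :: v) = 0
            rw [h3, mul_zero]
      rw [h1, h2, HH_app, hw_nil, map_zero, sub_zero, coeff_one]
      split_ifs with hk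
      · rw [hk, Nat.cast_zero, zero_mul]
      · rw [mul_zero]
    | cons a w =>
      rw [HH_app, coeff_hw]
      congr 2
      · rw [List.cons_append]
        cases a
        · exact (HH_app w v).symm
        · show GG * hw w = GG * HH (w ++ v) v
          rw [HH_app]
      · unfold la
        split_ifs with hl
        · have h1 : a :: w = (a :: w).dropLast ++ [false] := by
            have hne : a :: w ≠ [] := List.cons_ne_nil _ _
            have h2 := List.dropLast_append_getLast hne
            rw [List.getLast?_eq_some_getLast hne, Option.some.injEq] at hl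
            rw [hl] at h2
            exact h2.symm
          conv_rhs => rw [h1, List.append_assoc]
          show _ = HH ((a :: w).dropLast ++ (false :: v)) (false :: v)
          rw [HH_app]
        · symm
          apply HH_not
          rintro ⟨t, ht⟩
          apply hl
          have h1 : (t ++ [false]) ++ v = (a :: w) ++ v := by
            rw [← ht]
            simp
          rw [← List.append_cancel_right h1]
          simp
  · have h1 : HH u (false :: v) = 0 := HH_not fun h1 => h ((List.suffix_cons _ _).trans h1)
    have h2 : TL u v = 0 := by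
      cases u with
      | nil => rfl
      | cons a u =>
        have h3 : HH u v = 0 := HH_not fun h4 => h (h4.trans (List.suffix_cons _ _))
        cases a
        · exact h3
        · show GG * HH u v = 0
          rw [h3, mul_zero]
    rw [h1, h2, HH_not h]
    simp

/-! ### arithmetic -/

lemma SDc_In {f : ℚ⟦X⟧} (h : SDc f) : SDc (In f) := by
  obtain ⟨n, hn⟩ := h
  exact ⟨8 + n, (Pool.Agent.Y119.ML.SDp_In hn).mono (by rw [pow_add])⟩

lemma SDc_GG : SDc GG := by
  refine SDc.X.mul (Pool.Agent.Y119.HY.sdc_of ⟨1, fun m => ?_⟩ ⟨1, fun m => ⟨1, one_pos, ?_, fun j _ => ⟨1, ?_⟩⟩⟩)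
  · rw [coeff_mk]; simp
  · simp
  · rw [coeff_mk]; simp

lemma SDc_zero : SDc (0 : ℚ⟦X⟧) := by simpa using SDc.int 0

lemma SDc_sub {f g : ℚ⟦X⟧} (h : SDc f) (h' : SDc g) : SDc (f - g) := by
  have h1 := h.add ((SDc.int (-1)).mul h')
  have e : f + ((-1 : ℤ) : ℚ⟦X⟧) * g = f - g := by push_cast; ring
  rwa [e] at h1

lemma SDc_hh (n : ℕ) : ∀ w, SDc (hh n w) := by
  induction n with
  | zero => exact fun w => SDc.one
  | succ n ih =>
    intro w
    unfold hh
    refine SDc_In (SDc_sub ?_ ?_)
    · split
      · exact SDc_zero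
      · exact ih _
      · exact SDc_GG.mul (ih _)
    · split_ifs
      · exact ih _
      · exact SDc_zero

lemma SDc_HH (u v : List Bool) : SDc (HH u v) := by
  unfold HH
  split_ifs
  · exact SDc_hh _ _
  · exact SDc_zero

/-! ### the polylogarithms -/

lemma li_nil : li [] = 1 := by
  ext k
  rw [li, coeff_mk, coeff_one]
  rfl

lemma li_one (l : List ℕ) : li (1 :: l) = In (GG * li l) := by
  ext k
  rw [In, coeff_mk, coeff_GG, li, coeff_mk]
  unfold mz
  rw [pow_one]
  simp only [li, coeff_mk]

lemma li_succ (a : ℕ) (l : List ℕ) : li ((a + 1) :: l) = In (li (a :: l)) := by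
  ext k
  rw [In, coeff_mk, li, coeff_mk, li, coeff_mk]
  unfold mz
  rw [pow_succ, div_div]

lemma word_of (s : List ℕ) (hs : ∀ x ∈ s, 1 ≤ x) :
    ∃ w : List Bool, w.length = s.sum ∧ w.getLast? ≠ some false ∧ hw w = li s := by
  induction s with
  | nil => exact ⟨[], rfl, by simp, by rw [li_nil, hw_nil]⟩
  | cons a l ih =>
    obtain ⟨w, hw1, hw2, hw3⟩ := ih fun x hx => hs x (List.mem_cons_of_mem _ hx)
    have ha : 1 ≤ a := hs a List.mem_cons_self
    clear hs
    induction a, ha using Nat.le_induction with
    | base =>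
      have h1 : (true :: w).getLast? ≠ some false := by
        cases w with
        | nil => simp
        | cons b w => rwa [List.getLast?_cons_cons]
      refine ⟨true :: w, by rw [List.length_cons, hw1, List.sum_cons, add_comm], h1, ?_⟩
      have h2 : la (true :: w) = 0 := if_neg h1
      rw [hw_cons, h2, sub_zero, li_one, ← hw3]
      rfl
    | succ a ha iha =>
      obtain ⟨w', h1, h2, h3⟩ := iha
      have hne : w' ≠ [] := by
        rintro rfl
        rw [List.length_nil, List.sum_cons] at h1
        omega
      have h4 : (false :: w').getLast? ≠ some false := by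
        cases w' with
        | nil => exact absurd rfl hne
        | cons b w => rwa [List.getLast?_cons_cons]
      refine ⟨false :: w', by rw [List.length_cons, h1, List.sum_cons, List.sum_cons]; omega, h4, ?_⟩
      have h5 : la (false :: w') = 0 := if_neg h4
      rw [hw_cons, h5, sub_zero, li_succ, ← h3]
      rfl

/-! ### matrices -/

lemma nilp {R : Type} [CommRing R] {m : ℕ} (ℓ : Fin m → ℕ) (M : Matrix (Fin m) (Fin m) R)
    (hM : ∀ i j, ℓ i ≤ ℓ j → M i j = 0) : ∀ k i j, ℓ i < ℓ j + k → (M ^ k) i j = 0 := by
  intro k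
  induction k with
  | zero =>
    intro i j h
    rw [pow_zero, Matrix.one_apply_ne]
    rintro rfl
    omega
  | succ k ih =>
    intro i j h
    rw [pow_succ, Matrix.mul_apply]
    refine Finset.sum_eq_zero fun x _ => ?_
    by_cases hx : ℓ x ≤ ℓ j
    · rw [hM x j hx, mul_zero]
    · rw [ih i x (by omega), zero_mul]

lemma nilp' {R : Type} [CommRing R] {m : ℕ} (ℓ : Fin m → ℕ) (M : Matrix (Fin m) (Fin m) R) (W : ℕ)
    (hW : ∀ i, ℓ i ≤ W) (hM : ∀ i j, ℓ i ≤ ℓ j → M i j = 0) : M ^ (W + 1) = 0 := by
  ext i j
  have := hW i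
  exact nilp ℓ M hM _ i j (by omega)

/-- the words -/
abbrev WW (W : ℕ) : Type := {w : List Bool // w.length ≤ W}

noncomputable instance (W : ℕ) : Fintype (WW W) := @Fintype.ofFinite _ (List.finite_length_le Bool W).to_subtype

/-- the word of an index -/
noncomputable def wd {W : ℕ} (i : Fin (Fintype.card (WW W))) : List Bool := ((Fintype.equivFin (WW W)).symm i).1

lemma wd_len {W : ℕ} (i : Fin (Fintype.card (WW W))) : (wd i).length ≤ W := ((Fintype.equivFin (WW W)).symm i).2

lemma wd_inj {W : ℕ} : Function.Injective (wd (W := W)) :=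
  Subtype.val_injective.comp (Fintype.equivFin (WW W)).symm.injective

lemma wd_surj {W : ℕ} (w : List Bool) (h : w.length ≤ W) : ∃ i : Fin (Fintype.card (WW W)), wd i = w :=
  ⟨Fintype.equivFin (WW W) ⟨w, h⟩, by unfold wd; rw [Equiv.symm_apply_apply]⟩

lemma sum_wd {W : ℕ} (f : List Bool → ℚ) (w : List Bool) (h : W < w.length → f w = 0) :
    ∑ x : Fin (Fintype.card (WW W)), (if wd x = w then f (wd x) else 0) = f w := by
  by_cases hw : w.length ≤ W
  · obtain ⟨i, rfl⟩ := wd_surj w hw
    rw [Finset.sum_eq_single i]
    · rw [if_pos rfl]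
    · intro b _ hb
      rw [if_neg fun h => hb (wd_inj h)]
    · intro h
      exact absurd (Finset.mem_univ _) h
  · rw [h (not_le.1 hw)]
    refine Finset.sum_eq_zero fun x _ => ?_
    rw [if_neg]
    intro h1
    exact hw (h1 ▸ wd_len x)

/-- **PLS** -/
theorem PLS : S_PLS := by
  classical
  intro W
  set m := Fintype.card (WW W) with hm
  let N : Matrix (Fin m) (Fin m) ℚ := Matrix.of fun i j => if wd i = false :: wd j then 1 else 0
  let B : Matrix (Fin m) (Fin m) ℚ := Matrix.of fun i j => if wd i = true :: wd j then 1 else 0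
  let H : Matrix (Fin m) (Fin m) ℚ⟦X⟧ := Matrix.of fun i j => HH (wd i) (wd j)
  let V : Matrix (Fin m) (Fin m) ℚ⟦X⟧ := ∑ i ∈ Finset.range (W + 1), (1 - H) ^ i
  have hN : ∀ i j, (wd i).length ≤ (wd j).length → N i j = 0 := by
    intro i j h
    show (if wd i = false :: wd j then (1 : ℚ) else 0) = 0
    rw [if_neg]
    intro h1
    rw [h1, List.length_cons] at h
    omega
  have hH : ∀ i j, (wd i).length ≤ (wd j).length → (1 - H) i j = 0 := by
    intro i j h
    rw [Matrix.sub_apply]
    show _ - HH (wd i) (wd j) = 0
    by_cases hij : i = j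
    · subst hij
      rw [Matrix.one_apply_eq]
      have := HH_app [] (wd i)
      rw [List.nil_append] at this
      rw [this, hw_nil, sub_self]
    · rw [Matrix.one_apply_ne hij, HH_not, sub_zero]
      intro h1
      exact hij (wd_inj (h1.eq_of_length_le h).symm)
  have hNp := nilp' (fun i => (wd i).length) N W wd_len hN
  have hHp := nilp' (fun i => (wd i).length) (1 - H) W wd_len hH
  have hmW : W + 1 ≤ m := by
    have h1 : Function.Injective (fun k : Fin (W + 1) =>
        (⟨List.replicate k.val true, by rw [List.length_replicate]; omega⟩ : WW W)) := by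
      intro k k' h
      have h2 := congrArg (fun w : WW W => w.1.length) h
      simp only [List.length_replicate] at h2
      exact Fin.ext h2
    simpa using Fintype.card_le_of_injective _ h1
  have eHN : ∀ k i j, (cf H k * N) i j = coeff k (HH (wd i) (false :: wd j)) := by
    intro k i j
    rw [Matrix.mul_apply]
    have := sum_wd (W := W) (fun w => coeff k (HH (wd i) w)) (false :: wd j) (fun h => by
      rw [HH_len (lt_of_le_of_lt (wd_len i) h), map_zero])
    rw [← this]
    refine Finset.sum_congr rfl fun x _ => ?_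
    show coeff k (HH (wd i) (wd x)) * (if wd x = false :: wd j then (1 : ℚ) else 0) = _
    rw [mul_ite, mul_one, mul_zero]
  have eT : ∀ (b : Bool) (M : Matrix (Fin m) (Fin m) ℚ),
      (M = Matrix.of fun i j => if wd i = b :: wd j then 1 else 0) → ∀ k i j,
      (∀ u, wd i = b :: u → (M * cf H k) i j = coeff k (HH u (wd j))) ∧
      ((∀ u, wd i ≠ b :: u) → (M * cf H k) i j = 0) := by
    intro b M hM k i j
    constructor
    · intro u hu
      rw [Matrix.mul_apply]
      have hlu : u.length ≤ W := by
        have := wd_len i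
        rw [hu, List.length_cons] at this
        omega
      have := sum_wd (W := W) (fun w => coeff k (HH w (wd j))) u (fun h => by omega)
      rw [← this]
      refine Finset.sum_congr rfl fun x _ => ?_
      rw [hM]
      show (if wd i = b :: wd x then (1 : ℚ) else 0) * coeff k (HH (wd x) (wd j)) = _
      rw [hu, ite_mul, one_mul, zero_mul]
      by_cases hx : wd x = u
      · rw [if_pos (by rw [hx]), if_pos hx]
      · rw [if_neg (fun h => hx (List.cons_injective h).symm), if_neg hx]
    · intro hu
      rw [Matrix.mul_apply]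
      refine Finset.sum_eq_zero fun x _ => ?_
      rw [hM]
      show (if wd i = b :: wd x then (1 : ℚ) else 0) * coeff k (HH (wd x) (wd j)) = _
      rw [if_neg (hu _), zero_mul]
  have eTL : ∀ k i j, coeff k (TL (wd i) (wd j)) =
      (N * cf H k) i j + ∑ l ∈ Finset.range k, (B * cf H l) i j := by
    intro k i j
    have hNk := eT false N rfl k i j
    have hBk := fun l => eT true B rfl l i j
    rcases hwi : wd i with _ | ⟨b, u⟩
    · rw [hNk.2 (fun u h => by rw [hwi] at h; exact List.cons_ne_nil _ _ h.symm)]
      rw [Finset.sum_eq_zero fun l _ => (hBk l).2 (fun u h => by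
        rw [hwi] at h; exact List.cons_ne_nil _ _ h.symm)]
      show coeff k (0 : ℚ⟦X⟧) = _
      rw [map_zero, add_zero]
    · cases b
      · rw [hNk.1 u hwi, Finset.sum_eq_zero fun l _ => (hBk l).2 (fun u' h => by
          rw [hwi] at h; simp at h), add_zero]
        rfl
      · rw [hNk.2 (fun u' h => by rw [hwi] at h; simp at h), zero_add]
        show coeff k (GG * HH u (wd j)) = _
        rw [coeff_GG]
        exact Finset.sum_congr rfl fun l _ => ((hBk l).1 u hwi).symm
  have emain : ∀ (k : ℕ) i j, (k : ℚ) * cf H k i j + (cf H k * N) i j - (N * cf H k) i j =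
      ∑ l ∈ Finset.range k, (B * cf H l) i j := by
    intro k i j
    have h1 := main (wd i) (wd j) k
    rw [eTL, ← eHN] at h1
    have h2 : cf H k i j = coeff k (HH (wd i) (wd j)) := rfl
    rw [h2, h1]
    ring
  refine ⟨m, N, B, H, V, ⟨?_, ?_, ?_, ?_, ?_, ?_, ?_⟩, ?_⟩
  · refine ⟨fun i j => if wd i = false :: wd j then 1 else 0, fun i j => ?_⟩
    by_cases h : wd i = false :: wd j
    · simp [N, h]
    · simp [N, h]
  · exact pow_eq_zero_of_le hmW hNp
  · ext i j
    show coeff 0 (HH (wd i) (wd j)) = _
    by_cases hij : i = j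
    · subst hij
      have := HH_app [] (wd i)
      rw [List.nil_append] at this
      rw [this, hw_nil, Matrix.one_apply_eq]
      simp
    · rw [Matrix.one_apply_ne hij]
      by_cases h : wd j <:+ wd i
      · obtain ⟨w, hw⟩ := h
        rw [← hw, HH_app]
        refine cc_hw w ?_
        rintro rfl
        rw [List.nil_append] at hw
        exact hij (wd_inj hw).symm
      · rw [HH_not h, map_zero]
  · intro k
    ext i j
    have h1 := emain (k + 1) i j
    have h2 := emain k i j
    rw [Finset.sum_range_succ, ← h2] at h1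
    simp only [Matrix.add_apply, Matrix.smul_apply, Matrix.sub_apply, smul_eq_mul]
    push_cast at h1
    linarith
  · show H * V = 1
    have h1 := mul_neg_geom_sum (1 - H) (W + 1)
    rw [sub_sub_cancel, hHp, sub_zero] at h1
    exact h1
  · intro i j
    exact SDc_HH _ _
  · intro i j
    show SDc ((∑ k ∈ Finset.range (W + 1), (1 - H) ^ k) i j)
    rw [Matrix.sum_apply]
    refine SDc.sum' _ fun k hk => ?_
    clear hk
    have h1 : ∀ i j, SDc ((1 - H) i j) := by
      intro i j
      rw [Matrix.sub_apply]
      refine SDc_sub ?_ (SDc_HH _ _)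
      rw [Matrix.one_apply]
      split_ifs
      · exact SDc.one
      · exact SDc_zero
    clear emain eTL eT eHN hHp hNp
    induction k generalizing i j with
    | zero =>
      rw [pow_zero, Matrix.one_apply]
      split_ifs
      · exact SDc.one
      · exact SDc_zero
    | succ k ih =>
      rw [pow_succ]
      exact SDc_matmul (fun i j => ih i j) h1 i j
  · intro s
    obtain ⟨w, h1, -, h3⟩ := word_of s.1 s.2.1
    obtain ⟨a, ha⟩ := wd_surj (W := W) w (by rw [h1]; exact s.2.2)
    obtain ⟨b, hb⟩ := wd_surj (W := W) [] (Nat.zero_le _)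
    refine ⟨a, b, ?_⟩
    show HH (wd a) (wd b) = _
    rw [ha, hb, ← h3]
    have := HH_app w []
    rwa [List.append_nil] at this

end Pool.Agent.Run7.h160.HP
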